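import Mathlib
import Pool.Agent.W757.BL.Defs
set_option autoImplicit false

namespace Pool.Agent.W22.BL

open Set Filter Topology Pool.Agent.W757.BL

/-- comparison of angles, scalar form -/
lemma ang0 {p q p2 q2 : ℝ} (hq : 0 < q) (hq2 : 0 < q2) (h : p2 * q < p * q2) :
    p2 * √(p ^ 2 + q ^ 2) < p * √(p2 ^ 2 + q2 ^ 2) := by
  have s1 : 0 < √(p ^ 2 + q ^ 2) := Real.sqrt_pos.mpr (by positivity)
  have s2 : 0 < √(p2 ^ 2 + q2 ^ 2) := Real.sqrt_pos.mpr (by positivity)
  have e1 : √(p ^ 2 + q ^ 2) ^ 2 = p ^ 2 + q ^ 2 := Real.sq_sqrt (by positivity)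
  have e2 : √(p2 ^ 2 + q2 ^ 2) ^ 2 = p2 ^ 2 + q2 ^ 2 := Real.sq_sqrt (by positivity)
  rcases lt_or_ge 0 p with hp | hp
  · rcases le_or_gt p2 0 with hp2 | hp2
    · have h1 : p2 * √(p ^ 2 + q ^ 2) ≤ 0 := mul_nonpos_of_nonpos_of_nonneg hp2 s1.le
      have h2 : 0 < p * √(p2 ^ 2 + q2 ^ 2) := mul_pos hp s2
      linarith
    · have h3 : (p2 * √(p ^ 2 + q ^ 2)) ^ 2 < (p * √(p2 ^ 2 + q2 ^ 2)) ^ 2 := by
        rw [mul_pow, mul_pow, e1, e2]
        have h4 : (p2 * q) ^ 2 < (p * q2) ^ 2 := by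
          have h5 : 0 ≤ p2 * q := (mul_pos hp2 hq).le
          gcongr
        nlinarith
      exact lt_of_pow_lt_pow_left₀ 2 (by positivity) h3
  · have hp2 : p2 < 0 := by
      by_contra hcon
      have h1 : 0 ≤ p2 * q := mul_nonneg (not_lt.mp hcon) hq.le
      have h2 : p * q2 ≤ 0 := mul_nonpos_of_nonpos_of_nonneg hp hq2.le
      linarith
    have h3 : (-p * √(p2 ^ 2 + q2 ^ 2)) ^ 2 < (-p2 * √(p ^ 2 + q ^ 2)) ^ 2 := by
      rw [mul_pow, mul_pow, e1, e2]
      have h4 : (-p * q2) ^ 2 < (-p2 * q) ^ 2 := by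
        have h5 : 0 ≤ -p * q2 := mul_nonneg (by linarith) hq2.le
        have h6 : -p * q2 < -p2 * q := by linarith
        gcongr
      nlinarith
    have h7 := lt_of_pow_lt_pow_left₀ 2 (by nlinarith) h3
    linarith

/-- comparison of angles -/
lemma ang {u1 u2 v1 v2 w1 w2 : ℝ} (hv : 0 < u1 * v2 - u2 * v1) (hw : 0 < u1 * w2 - u2 * w1)
    (hvw : 0 < v1 * w2 - v2 * w1) :
    (u1 * w1 + u2 * w2) / √(w1 ^ 2 + w2 ^ 2) < (u1 * v1 + u2 * v2) / √(v1 ^ 2 + v2 ^ 2) := by
  have hu : 0 < u1 ^ 2 + u2 ^ 2 := by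
    by_contra hcon
    have h1 : u1 = 0 := by
      have h5 := sq_nonneg u1
      have h6 := sq_nonneg u2
      exact pow_eq_zero_iff (two_ne_zero) |>.mp (by linarith)
    have h2 : u2 = 0 := by
      have h5 := sq_nonneg u1
      have h6 := sq_nonneg u2
      exact pow_eq_zero_iff (two_ne_zero) |>.mp (by linarith)
    rw [h1, h2] at hv
    simp at hv
  have hV : 0 < v1 ^ 2 + v2 ^ 2 := by
    by_contra hcon
    have h1 : v1 = 0 := by
      have h5 := sq_nonneg v1
      have h6 := sq_nonneg v2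
      exact pow_eq_zero_iff (two_ne_zero) |>.mp (by linarith)
    have h2 : v2 = 0 := by
      have h5 := sq_nonneg v1
      have h6 := sq_nonneg v2
      exact pow_eq_zero_iff (two_ne_zero) |>.mp (by linarith)
    rw [h1, h2] at hv
    simp at hv
  have hW : 0 < w1 ^ 2 + w2 ^ 2 := by
    by_contra hcon
    have h1 : w1 = 0 := by
      have h5 := sq_nonneg w1
      have h6 := sq_nonneg w2
      exact pow_eq_zero_iff (two_ne_zero) |>.mp (by linarith)
    have h2 : w2 = 0 := by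
      have h5 := sq_nonneg w1
      have h6 := sq_nonneg w2
      exact pow_eq_zero_iff (two_ne_zero) |>.mp (by linarith)
    rw [h1, h2] at hw
    simp at hw
  rw [div_lt_div_iff₀ (Real.sqrt_pos.mpr hW) (Real.sqrt_pos.mpr hV)]
  have key := ang0 (p := u1 * v1 + u2 * v2) (q := u1 * v2 - u2 * v1) (p2 := u1 * w1 + u2 * w2)
    (q2 := u1 * w2 - u2 * w1) hv hw (by
      have e : (u1 * v1 + u2 * v2) * (u1 * w2 - u2 * w1) -
        (u1 * w1 + u2 * w2) * (u1 * v2 - u2 * v1) = (u1 ^ 2 + u2 ^ 2) * (v1 * w2 - v2 * w1) := by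
        ring
      have := mul_pos hu hvw
      linarith)
  have e1 : (u1 * v1 + u2 * v2) ^ 2 + (u1 * v2 - u2 * v1) ^ 2 =
    (u1 ^ 2 + u2 ^ 2) * (v1 ^ 2 + v2 ^ 2) := by ring
  have e2 : (u1 * w1 + u2 * w2) ^ 2 + (u1 * w2 - u2 * w1) ^ 2 =
    (u1 ^ 2 + u2 ^ 2) * (w1 ^ 2 + w2 ^ 2) := by ring
  rw [e1, e2, Real.sqrt_mul hu.le, Real.sqrt_mul hu.le] at key
  have hs := Real.sqrt_pos.mpr hu
  refine lt_of_mul_lt_mul_left ?_ hs.le
  calc _ = (u1 * w1 + u2 * w2) * (√(u1 ^ 2 + u2 ^ 2) * √(v1 ^ 2 + v2 ^ 2)) := by ring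
    _ < _ := key
    _ = _ := by ring

lemma hh_norm (x y : ℝ → ℝ) (a b : ℝ) :
    hh x y a b = ‖(⟨x b, y b⟩ : ℂ) - ⟨x a, y a⟩‖ := by
  rw [Complex.norm_def, Complex.normSq_apply]
  unfold hh
  simp only [Complex.sub_re, Complex.sub_im]
  congr 1
  ring

/-- the diagonals of a convex quadrilateral -/
lemma quad0 {a1 a2 b1 b2 c1 c2 d1 d2 : ℝ}
    (h1 : 0 < (b1 - a1) * (c2 - a2) - (b2 - a2) * (c1 - a1))
    (h2 : 0 < (c1 - a1) * (d2 - a2) - (c2 - a2) * (d1 - a1))
    (h3 : 0 < (b1 - a1) * (d2 - a2) - (b2 - a2) * (d1 - a1))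
    (h4 : 0 < (c1 - b1) * (d2 - b2) - (c2 - b2) * (d1 - b1)) :
    ‖(⟨d1, d2⟩ : ℂ) - ⟨a1, a2⟩‖ + ‖(⟨c1, c2⟩ : ℂ) - ⟨b1, b2⟩‖ ≤
      ‖(⟨c1, c2⟩ : ℂ) - ⟨a1, a2⟩‖ + ‖(⟨d1, d2⟩ : ℂ) - ⟨b1, b2⟩‖ := by
  set Δ : ℝ := (c1 - a1) * (d2 - b2) - (c2 - a2) * (d1 - b1) with hΔ
  set α : ℝ := (b1 - a1) * (c2 - a2) - (b2 - a2) * (c1 - a1) with hα
  set β : ℝ := (b1 - a1) * (d2 - a2) - (b2 - a2) * (d1 - a1) with hβ
  have hΔ0 : 0 < Δ := by
    have : Δ = α + ((c1 - a1) * (d2 - a2) - (c2 - a2) * (d1 - a1)) := by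
      rw [hΔ, hα]; ring
    linarith
  have hα1 : α < Δ := by
    have : Δ = α + ((c1 - a1) * (d2 - a2) - (c2 - a2) * (d1 - a1)) := by
      rw [hΔ, hα]; ring
    linarith
  have hβ1 : β < Δ := by
    have : Δ = β + ((c1 - b1) * (d2 - b2) - (c2 - b2) * (d1 - b1)) := by
      rw [hΔ, hβ]; ring
    linarith
  set r : ℝ := α / Δ with hr
  set s : ℝ := β / Δ with hs
  have hr0 : 0 < r := div_pos h1 hΔ0
  have hr1 : r < 1 := (div_lt_one hΔ0).mpr hα1
  have hs0 : 0 < s := div_pos h3 hΔ0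
  have hs1 : s < 1 := (div_lt_one hΔ0).mpr hβ1
  have ex : b1 + r * (d1 - b1) = a1 + s * (c1 - a1) := by
    rw [hr, hs]
    field_simp
    rw [hΔ, hα, hβ]
    ring
  have ey : b2 + r * (d2 - b2) = a2 + s * (c2 - a2) := by
    rw [hr, hs]
    field_simp
    rw [hΔ, hα, hβ]
    ring
  set A : ℂ := ⟨a1, a2⟩ with hA
  set B : ℂ := ⟨b1, b2⟩ with hB
  set C : ℂ := ⟨c1, c2⟩ with hC
  set D : ℂ := ⟨d1, d2⟩ with hD
  have hX : B + (r : ℂ) * (D - B) = A + (s : ℂ) * (C - A) := by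
    apply Complex.ext
    · simpa [hA, hB, hC, hD] using ex
    · simpa [hA, hB, hC, hD] using ey
  have n1 : ‖D - A‖ ≤ (1 - r) * ‖D - B‖ + s * ‖C - A‖ := by
    have e : D - A = ((1 - r : ℝ) : ℂ) * (D - B) + (s : ℂ) * (C - A) := by
      push_cast
      linear_combination hX
    rw [e]
    refine (norm_add_le _ _).trans (le_of_eq ?_)
    rw [norm_mul, norm_mul, Complex.norm_real, Complex.norm_real, Real.norm_of_nonneg
      (by linarith), Real.norm_of_nonneg hs0.le]
  have n2 : ‖C - B‖ ≤ (1 - s) * ‖C - A‖ + r * ‖D - B‖ := by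
    have e : C - B = ((1 - s : ℝ) : ℂ) * (C - A) + (r : ℂ) * (D - B) := by
      push_cast
      linear_combination -hX
    rw [e]
    refine (norm_add_le _ _).trans (le_of_eq ?_)
    rw [norm_mul, norm_mul, Complex.norm_real, Complex.norm_real, Real.norm_of_nonneg
      (by linarith), Real.norm_of_nonneg hr0.le]
  linarith

/-- the strict triangle inequality -/
lemma tri0 {u v : ℂ} (h : 0 < u.re * v.im - u.im * v.re) : ‖u + v‖ < ‖u‖ + ‖v‖ := by
  rw [← not_sameRay_iff_norm_add_lt]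
  intro hs
  rcases hs with hs | hs | ⟨r1, r2, h1, h2, h3⟩
  · rw [hs] at h
    simp at h
  · rw [hs] at h
    simp at h
  · have e1 := congrArg Complex.re h3
    have e2 := congrArg Complex.im h3
    simp at e1 e2
    have : r1 * (u.re * v.im - u.im * v.re) = 0 := by
      have : r1 * (u.re * v.im - u.im * v.re) = (r1 * u.re) * v.im - (r1 * u.im) * v.re := by ring
      rw [this, e1, e2]
      ring
    have h5 := mul_pos h1 h
    linarith

theorem t_CF (hO : S_ORI) : S_CF := by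
  intro x y x' y' L h
  obtain ⟨p1, p2, p3⟩ := hO x y x' y' L h
  have hcx : Continuous x := continuous_iff_continuousAt.mpr fun s => (h.dx s).continuousAt
  have hcy : Continuous y := continuous_iff_continuousAt.mpr fun s => (h.dy s).continuousAt
  have hsq : ∀ a b, a < b → b < a + L → 0 < (x b - x a) ^ 2 + (y b - y a) ^ 2 := by
    intro a b hab hba
    have h1 := h.conv a b hab hba
    have h5 := sq_nonneg (x b - x a)
    have h6 := sq_nonneg (y b - y a)
    by_contra hcon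
    have h7 : x b - x a = 0 := pow_eq_zero_iff (two_ne_zero) |>.mp (by linarith)
    have h8 : y b - y a = 0 := pow_eq_zero_iff (two_ne_zero) |>.mp (by linarith)
    rw [h7, h8] at h1
    simp at h1
  have hpos : ∀ a b, a < b → b < a + L → 0 < hh x y a b := fun a b hab hba =>
    Real.sqrt_pos.mpr (hsq a b hab hba)
  have hcont : Continuous (fun p : ℝ × ℝ => hh x y p.1 p.2) := by
    unfold hh
    fun_prop
  have hper1 : ∀ a b, hh x y (a + L) b = hh x y a b := by
    intro a b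
    unfold hh
    rw [h.px, h.py]
  have hper2 : ∀ a b, hh x y a (b + L) = hh x y a b := by
    intro a b
    unfold hh
    rw [h.px, h.py]
  have hself : ∀ a, hh x y a a = 0 := by
    intro a
    unfold hh
    simp
  have hsymm : ∀ a b, hh x y a b = hh x y b a := by
    intro a b
    unfold hh
    congr 1
    ring
  have htri : ∀ a b c, hh x y a c ≤ hh x y a b + hh x y b c := by
    intro a b c
    rw [hh_norm, hh_norm, hh_norm]
    have e : (⟨x c, y c⟩ : ℂ) - ⟨x a, y a⟩ = ((⟨x b, y b⟩ : ℂ) - ⟨x a, y a⟩) +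
      ((⟨x c, y c⟩ : ℂ) - ⟨x b, y b⟩) := by ring
    rw [e]
    exact norm_add_le _ _
  refine ⟨?_, hper1, hper2, p1, hcont, hpos, p3, p2, ?_, ?_, ?_, ?_, ?_, ?_, ?_⟩
  · intro a b
    rw [hper1, hper2]
  · -- derivative along a line
    intro a b α β hab hba
    have l1 : ∀ c γ : ℝ, HasDerivAt (fun τ : ℝ => c + τ * γ) γ 0 := fun c γ => by
      simpa using ((hasDerivAt_id (0 : ℝ)).mul_const γ).const_add c
    have dX : ∀ c γ : ℝ, HasDerivAt (fun τ : ℝ => x (c + τ * γ)) (x' c * γ) 0 := by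
      intro c γ
      have h1 : HasDerivAt x (x' c) (c + 0 * γ) := by
        rw [zero_mul, add_zero]
        exact h.dx c
      exact h1.comp (0 : ℝ) (l1 c γ)
    have dY : ∀ c γ : ℝ, HasDerivAt (fun τ : ℝ => y (c + τ * γ)) (y' c * γ) 0 := by
      intro c γ
      have h1 : HasDerivAt y (y' c) (c + 0 * γ) := by
        rw [zero_mul, add_zero]
        exact h.dy c
      exact h1.comp (0 : ℝ) (l1 c γ)
    have sqd : ∀ (f : ℝ → ℝ) (f' : ℝ), HasDerivAt f f' 0 →
        HasDerivAt (fun τ => f τ ^ 2) (2 * f 0 * f') 0 := by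
      intro f f' hf
      have := hf.fun_pow 2
      simpa using this
    have dX2 : HasDerivAt (fun τ : ℝ => x (b + τ * β) - x (a + τ * α))
      (x' b * β - x' a * α) 0 := (dX b β).sub (dX a α)
    have dY2 : HasDerivAt (fun τ : ℝ => y (b + τ * β) - y (a + τ * α))
      (y' b * β - y' a * α) 0 := (dY b β).sub (dY a α)
    have d1 : HasDerivAt (fun τ : ℝ => (x (b + τ * β) - x (a + τ * α)) ^ 2 +
        (y (b + τ * β) - y (a + τ * α)) ^ 2)
        (2 * (x (b + 0 * β) - x (a + 0 * α)) * (x' b * β - x' a * α) +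
          2 * (y (b + 0 * β) - y (a + 0 * α)) * (y' b * β - y' a * α)) 0 :=
      (sqd _ _ dX2).add (sqd _ _ dY2)
    have hne : (x (b + 0 * β) - x (a + 0 * α)) ^ 2 + (y (b + 0 * β) - y (a + 0 * α)) ^ 2 ≠ 0 := by
      simp only [zero_mul, add_zero]
      exact (hsq a b hab hba).ne'
    have d2 := d1.sqrt hne
    simp only [zero_mul, add_zero] at d2
    unfold hh
    refine d2.congr_deriv ?_
    unfold h1 h2
    have hp := hpos a b hab hba
    unfold hh at hp ⊢
    field_simp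
    ring
  · -- continuity of h1
    unfold h1
    refine ContinuousOn.div ?_ hcont.continuousOn fun p hp => (hpos _ _ hp.1 hp.2).ne'
    have := h.cx
    have := h.cy
    fun_prop
  · unfold h2
    refine ContinuousOn.div ?_ hcont.continuousOn fun p hp => (hpos _ _ hp.1 hp.2).ne'
    have := h.cx
    have := h.cy
    fun_prop
  · intro a b b' hab hbb hba
    have hu := h.conv a b hab (by linarith)
    have hu' := h.conv a b' (by linarith) hba
    have ho := p3 a b b' hab hbb hba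
    have := ang (u1 := x' a) (u2 := y' a) (v1 := x b - x a) (v2 := y b - y a)
      (w1 := x b' - x a) (w2 := y b' - y a) hu hu' ho
    unfold h1 hh
    rw [neg_div, neg_div, neg_lt_neg_iff]
    rw [mul_comm (x b' - x a), mul_comm (y b' - y a), mul_comm (x b - x a), mul_comm (y b - y a)]
    exact this
  · intro a a' b haa hab hba
    have hu := p2 a b (by linarith) hba
    have hu' := p2 a' b hab (by linarith)
    have ho := p3 a a' b haa hab hba
    have := ang (u1 := x' b) (u2 := y' b) (v1 := x a - x b) (v2 := y a - y b)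
      (w1 := x a' - x b) (w2 := y a' - y b) hu hu' (by linarith)
    unfold h2 hh
    have e1 : ∀ c, (x b - x c) ^ 2 + (y b - y c) ^ 2 = (x c - x b) ^ 2 + (y c - y b) ^ 2 := by
      intro c
      ring
    have e2 : ∀ c, (x b - x c) * x' b + (y b - y c) * y' b =
        -(x' b * (x c - x b) + y' b * (y c - y b)) := by
      intro c
      ring
    rw [e1, e1, e2, e2, neg_div, neg_div, neg_lt_neg_iff]
    exact this
  · -- quadrilaterals
    intro a b c d hab hbc hcd hda
    rcases eq_or_lt_of_le hab with rfl | hab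
    · rw [add_comm]
    rcases eq_or_lt_of_le hbc with rfl | hbc
    · rw [hself, add_zero]
      exact htri _ _ _
    rcases eq_or_lt_of_le hcd with rfl | hcd
    · rfl
    rcases eq_or_lt_of_le hda with rfl | hda
    · rw [hper2, hper2, hself, zero_add, hsymm b c, hsymm b a, add_comm, hsymm a c]
      rw [add_comm]
      have := htri c a b
      linarith
    · rw [hh_norm, hh_norm, hh_norm, hh_norm]
      exact quad0 (p3 a b c hab hbc (by linarith)) (p3 a c d (by linarith) hcd hda)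
        (p3 a b d hab (by linarith) hda) (p3 b c d hbc hcd (by linarith))
  · intro a b c hab hbc hca
    rcases eq_or_lt_of_le hca with rfl | hca
    · rw [hper2, hself]
      have h1 := hpos a b hab hbc
      have h2 := hpos b (a + L) hbc (by linarith)
      linarith
    · rw [hh_norm, hh_norm, hh_norm]
      have e : (⟨x c, y c⟩ : ℂ) - ⟨x a, y a⟩ = ((⟨x b, y b⟩ : ℂ) - ⟨x a, y a⟩) +
        ((⟨x c, y c⟩ : ℂ) - ⟨x b, y b⟩) := by ring
      rw [e]
      refine tri0 ?_
      have := p3 a b c hab hbc hca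
      simp only [Complex.sub_re, Complex.sub_im]
      linarith

end Pool.Agent.W22.BL
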