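import Mathlib
import Pool.Agent.W757.BL.Defs
set_option autoImplicit false

namespace Pool.Agent.W22.BL

open Set Filter Topology Pool.Agent.W757.BL

theorem t_FAM (hF : S_FV) (hA : S_AUB) : S_FAM := by
  intro x y x' y' L n m hv hcf hn hC
  choose c hc using hC.ex
  have hP : ∀ a, Pol L n (c a) := fun a => (hc a).1
  have h0 : ∀ a, c a 0 = a := fun a => (hc a).2.1
  have hS : ∀ a, SS x y n (c a) = m := fun a => (hc a).2.2
  have uniq : ∀ d, Pol L n d → SS x y n d = m → d = c (d 0) := by
    intro d hd hd2
    exact (hA x y x' y' L n m hv hcf hn hC.le d (c (d 0)) hd hd2 (hP _) (hS _)).1 (h0 _).symm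
  have shift : ∀ a i, c a (i + 1) = c (c a 1) i := by
    intro a i
    have hd : Pol L n (fun i => c a (i + 1)) := by
      constructor
      · intro i
        exact (hP a).mono (i + 1)
      · intro i
        have := (hP a).per (i + 1)
        rw [show i + n + 1 = i + 1 + n by ring]
        exact this
    have hd2 : SS x y n (fun i => c a (i + 1)) = m := by
      rw [← hS a]
      unfold SS
      have e1 := Finset.sum_range_succ (fun i => hh x y (c a i) (c a (i + 1))) n
      have e2 := Finset.sum_range_succ' (fun i => hh x y (c a i) (c a (i + 1))) n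
      have e3 : hh x y (c a n) (c a (n + 1)) = hh x y (c a 0) (c a (0 + 1)) := by
        have h1 := (hP a).per 0
        have h2 := (hP a).per 1
        rw [zero_add] at h1
        rw [show n + 1 = 1 + n by ring, h1, h2, hcf.per]
      linarith
    have := uniq _ hd hd2
    have h3 := congrFun this i
    simpa using h3
  set f : ℝ → ℝ := fun a => c a 1 with hf
  have iter : ∀ i a, c a i = f^[i] a := by
    intro i
    induction i with
    | zero =>
      intro a
      rw [h0]
      rfl
    | succ i ih =>
      intro a
      rw [shift, ih, Function.iterate_succ_apply]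
  have cyc : ∀ s, f^[n] s = s + L := by
    intro s
    rw [← iter]
    have := (hP s).per 0
    rw [zero_add, h0] at this
    exact this
  have hmono : ∀ a, StrictMono (c a) := fun a => strictMono_nat_of_lt_succ (hP a).mono
  refine ⟨f, ?_, ?_, ?_, ?_, cyc, ?_, ?_, ?_, hC.le⟩
  · intro s t hst
    have h1 := (hA x y x' y' L n m hv hcf hn hC.le (c s) (c t) (hP _) (hS _) (hP _) (hS _)).2
    rw [h0, h0] at h1
    exact h1 hst 1
  · intro s
    have hd : Pol L n (fun i => c s i + L) := by
      constructor
      · intro i
        have := (hP s).mono i
        linarith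
      · intro i
        have := (hP s).per i
        rw [this]
    have hd2 : SS x y n (fun i => c s i + L) = m := by
      rw [← hS s]
      unfold SS
      refine Finset.sum_congr rfl fun i _ => ?_
      rw [hcf.per]
    have := congrFun (uniq _ hd hd2) 1
    simp only [h0] at this
    exact this.symm
  · intro s
    have := (hP s).mono 0
    rw [h0] at this
    simpa using this
  · intro s
    have h1 := (hP s).per 0
    rw [zero_add, h0] at h1
    rw [← h1]
    exact hmono s (by omega)
  · intro z
    obtain ⟨k, rfl⟩ : ∃ k, n = k + 1 := ⟨n - 1, by omega⟩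
    refine ⟨f^[k] (z - L), ?_⟩
    have := cyc (z - L)
    rw [Function.iterate_succ_apply'] at this
    rw [this]
    ring
  · intro s
    have := hF x y x' y' L n m hv hcf hn hC.le (c s) (hP s) (hS s) 0
    rw [iter, iter, iter] at this
    exact this
  · intro s
    rw [← hS s]
    congr 1
    funext i
    exact (iter i s).symm

end Pool.Agent.W22.BL
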