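import Mathlib
import Pool.Agent.W757.BL.Defs
set_option autoImplicit false

namespace Pool.Agent.W22.BL

open Set Filter Topology Pool.Agent.W757.BL

lemma pos_right {f : ℝ → ℝ} {b d c : ℝ} (h : HasDerivAt f d b) (hd : 0 < d) (h0 : f b = 0)
    (hc : b < c) : ∃ z, b < z ∧ z < c ∧ 0 < f z := by
  have h1 := (hasDerivAt_iff_tendsto_slope.mp h).eventually (lt_mem_nhds hd)
  have h2 : ∀ᶠ z in 𝓝[>] b, 0 < slope f b z :=
    h1.filter_mono (nhdsWithin_mono b fun z hz => ne_of_gt hz)
  have h3 : ∀ᶠ z in 𝓝[>] b, z < c := nhdsWithin_le_nhds (eventually_lt_nhds hc)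
  have h4 : ∀ᶠ z in 𝓝[>] b, b < z := eventually_mem_nhdsWithin
  obtain ⟨z, hz1, hz2, hz3⟩ := (h2.and (h3.and h4)).exists
  refine ⟨z, hz3, hz2, ?_⟩
  rw [slope_def_field, h0, sub_zero] at hz1
  have := mul_pos hz1 (sub_pos.mpr hz3)
  rwa [div_mul_cancel₀ _ (sub_pos.mpr hz3).ne'] at this

lemma pos_left {f : ℝ → ℝ} {b d c : ℝ} (h : HasDerivAt f d b) (hd : d < 0) (h0 : f b = 0)
    (hc : c < b) : ∃ z, c < z ∧ z < b ∧ 0 < f z := by
  have h1 : HasDerivAt (fun z => f (-z)) (-d) (-b) := by
    have h2 : HasDerivAt f d (-(-b)) := by rwa [neg_neg]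
    simpa [Function.comp_def] using h2.comp (-b) (hasDerivAt_neg (-b))
  obtain ⟨z, hz1, hz2, hz3⟩ := pos_right h1 (by linarith) (by simpa using h0)
    (by linarith : -b < -c)
  exact ⟨-z, by linarith, by linarith, hz3⟩

/-- a positive interior maximum on `[b, c]` -/
lemma exists_max {f : ℝ → ℝ} {b c z : ℝ} (hf : Continuous f) (hb : f b ≤ 0) (hc : f c ≤ 0)
    (hbz : b < z) (hzc : z < c) (hz : 0 < f z) :
    ∃ w, b < w ∧ w < c ∧ 0 < f w ∧ IsLocalMax f w := by
  obtain ⟨w, hw, hmax⟩ := (isCompact_Icc : IsCompact (Icc b c)).exists_isMaxOn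
    ⟨z, hbz.le, hzc.le⟩ hf.continuousOn
  have h1 : f z ≤ f w := hmax ⟨hbz.le, hzc.le⟩
  have h2 : 0 < f w := lt_of_lt_of_le hz h1
  have h3 : b < w := lt_of_le_of_ne hw.1 (by rintro rfl; linarith)
  have h4 : w < c := lt_of_le_of_ne hw.2 (by rintro rfl; linarith)
  exact ⟨w, h3, h4, h2, hmax.isLocalMax (Icc_mem_nhds h3 h4)⟩

theorem t_ORI : S_ORI := by
  intro x y x' y' L h
  have hcx : Continuous x := continuous_iff_continuousAt.mpr fun s => (h.dx s).continuousAt
  have hcy : Continuous y := continuous_iff_continuousAt.mpr fun s => (h.dy s).continuousAt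
  have p1 : ∀ s, x' (s + L) = x' s ∧ y' (s + L) = y' s := by
    intro s
    constructor
    · have h1 : HasDerivAt (fun z => x (z + L)) (x' (s + L)) s := by
        exact (h.dx (s + L)).comp_add_const s L
      have h2 : (fun z => x (z + L)) = x := funext h.px
      rw [h2] at h1
      exact h1.unique (h.dx s)
    · have h1 : HasDerivAt (fun z => y (z + L)) (y' (s + L)) s := by
        exact (h.dy (s + L)).comp_add_const s L
      have h2 : (fun z => y (z + L)) = y := funext h.py
      rw [h2] at h1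
      exact h1.unique (h.dy s)
  have p2 : ∀ s t, s < t → t < s + L → 0 < x' t * (y s - y t) - y' t * (x s - x t) := by
    intro s t hst hts
    have := h.conv t (s + L) hts (by linarith)
    rwa [h.px, h.py] at this
  refine ⟨p1, p2, ?_⟩
  intro a b c hab hbc hca
  set φ : ℝ → ℝ := fun z => (x b - x a) * (y z - y a) - (y b - y a) * (x z - x a) with hφ
  have hd : ∀ z, HasDerivAt φ ((x b - x a) * y' z - (y b - y a) * x' z) z := fun z =>
    (((h.dy z).sub_const _).const_mul _).sub (((h.dx z).sub_const _).const_mul _)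
  have hφc : Continuous φ := continuous_iff_continuousAt.mpr fun s => (hd s).continuousAt
  have hb0 : φ b = 0 := by simp only [hφ]; ring
  have ha0 : φ (a + L) = 0 := by simp only [hφ, h.px, h.py]; ring
  by_contra hcon
  have hcon' : φ c ≤ 0 := not_lt.mp hcon
  obtain ⟨z1, hz1, hz1', hz1p⟩ := pos_right (hd b) (by
    have := p2 a b hab (by linarith)
    linarith) hb0 hbc
  obtain ⟨z2, hz2, hz2', hz2p⟩ := pos_left (hd (a + L)) (by
    have := h.conv a b hab (by linarith)
    rw [(p1 a).1, (p1 a).2]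
    linarith) ha0 hca
  obtain ⟨c1, hc1, hc1', hc1p, hc1m⟩ := exists_max hφc hb0.le hcon' hz1 hz1' hz1p
  obtain ⟨c2, hc2, hc2', hc2p, hc2m⟩ := exists_max hφc hcon' ha0.le hz2 hz2' hz2p
  have e1 := hc1m.hasDerivAt_eq_zero (hd c1)
  have e2 := hc2m.hasDerivAt_eq_zero (hd c2)
  have i1 := p2 a c1 (by linarith) (by linarith)
  have i2 := p2 a c2 (by linarith) (by linarith)
  have i3 := h.conv c1 c2 (by linarith) (by linarith)
  have i4 := p2 c1 c2 (by linarith) (by linarith)
  simp only [hφ] at hc1p hc2p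
  set X := x b - x a with hX
  set Y := y b - y a with hY
  -- the linear forms are multiples of the cross product with the chord
  have key : ∀ (u v p q : ℝ), X * v - Y * u = 0 → (u * q - v * p) * (X ^ 2 + Y ^ 2) =
      (u * X + v * Y) * (X * q - Y * p) := by
    intro u v p q huv
    have : (u * q - v * p) * (X ^ 2 + Y ^ 2) - (u * X + v * Y) * (X * q - Y * p) =
      -(X * v - Y * u) * (X * p + Y * q) := by ring
    rw [huv] at this
    linarith
  have hD : 0 < X ^ 2 + Y ^ 2 := by
    by_contra hD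
    have hX0 : X = 0 := by
      have h5 := sq_nonneg X
      have h6 := sq_nonneg Y
      exact pow_eq_zero_iff (two_ne_zero) |>.mp (by linarith)
    have hY0 : Y = 0 := by
      have h5 := sq_nonneg X
      have h6 := sq_nonneg Y
      exact pow_eq_zero_iff (two_ne_zero) |>.mp (by linarith)
    rw [hX0, hY0] at hc1p
    simp at hc1p
  have k1 := key _ _ (x a - x c1) (y a - y c1) e1
  have k2 := key _ _ (x a - x c2) (y a - y c2) e2
  have k3 := key _ _ (x c2 - x c1) (y c2 - y c1) e1
  have k4 := key _ _ (x c1 - x c2) (y c1 - y c2) e2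
  have j1 := mul_pos i1 hD
  have j2 := mul_pos i2 hD
  have j3 := mul_pos i3 hD
  have j4 := mul_pos i4 hD
  rw [k1] at j1
  rw [k2] at j2
  rw [k3] at j3
  rw [k4] at j4
  have n1 : x' c1 * X + y' c1 * Y < 0 := by
    by_contra hh
    exact absurd j1 (not_lt.mpr (mul_nonpos_of_nonneg_of_nonpos (not_lt.mp hh) (by linarith)))
  have n2 : x' c2 * X + y' c2 * Y < 0 := by
    by_contra hh
    exact absurd j2 (not_lt.mpr (mul_nonpos_of_nonneg_of_nonpos (not_lt.mp hh) (by linarith)))
  have m1 : X * (y c2 - y c1) - Y * (x c2 - x c1) < 0 := by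
    by_contra hh
    exact absurd j3 (not_lt.mpr (mul_nonpos_of_nonpos_of_nonneg n1.le (not_lt.mp hh)))
  have m2 : X * (y c1 - y c2) - Y * (x c1 - x c2) < 0 := by
    by_contra hh
    exact absurd j4 (not_lt.mpr (mul_nonpos_of_nonpos_of_nonneg n2.le (not_lt.mp hh)))
  linarith

end Pool.Agent.W22.BL
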